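import Mathlib
import Pool.Agent.H60.PAryB

namespace Pool.Agent.Results.MP_8976f7_nt.Counter

open Pool.Agent.H60.PAry

/-- For the prime `p = 3` and `k = 22 ∉ E_3`, no value `A_{3,22}(n)` is divisible by `3^6`. -/
theorem result : ∃ p k : ℕ, p.Prime ∧ p = 3 ∧ k = 22 ∧
    (¬ ∃ s u : ℕ, 1 ≤ u ∧ u ≤ p - 1 ∧ k = (p - 1) * (u * p ^ s - 1)) ∧
    ∀ n : ℕ, S p 0 k n ≠ 0 ∧ padicValNat p (S p 0 k n) ≤ 5 := by
  refine ⟨3, 22, by norm_num, rfl, rfl, ?_, fun n => ⟨fun h => not_dvd22 n (by simp [h]), val22 n⟩⟩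
  rintro ⟨s, u, h1, h2, h3⟩
  have h4 : u * 3 ^ s = 12 := by omega
  rcases s with _ | _ | s
  · omega
  · omega
  · have : u * 3 ^ (s + 1 + 1) = 9 * (u * 3 ^ s) := by ring
    omega

end Pool.Agent.Results.MP_8976f7_nt.Counter
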